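import Pool.Agent.U909.UL.Pairs

/-!
# Pairs of primes with small differences along `⌊α n ^ c⌋`: all scales
-/

set_option autoImplicit false

open Finset Filter Topology

namespace Pool.Agent.U909.UL

open Pool.Agent.Y854.PS (ms xs)
open Pool.Agent.U909.PW (ms_ge log_pow_le log_ms)

/-- the product over the odd prime factors -/
noncomputable def sg (d : ℕ) : ℝ :=
  ∏ p ∈ d.primeFactors.filter (fun p : ℕ => 2 < p), (((p : ℝ) - 1) / ((p : ℝ) - 2))

lemma one_le_sg (d : ℕ) : 1 ≤ sg d := by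
  unfold sg
  have h : ∏ _p ∈ d.primeFactors.filter (fun p : ℕ => 2 < p), (1 : ℝ) ≤
      ∏ p ∈ d.primeFactors.filter (fun p : ℕ => 2 < p), (((p : ℝ) - 1) / ((p : ℝ) - 2)) := by
    apply Finset.prod_le_prod (fun _ _ => zero_le_one)
    intro p hp
    have h1 := (mem_filter.1 hp).2
    have h2 : (2 : ℝ) < p := by exact_mod_cast h1
    rw [le_div_iff₀ (by linarith)]
    linarith
  simpa using h

/-- The passage from all integers to the sequence, for all scales. -/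
theorem passage {α c κ κ' : ℝ} (hα : 0 < α) (hc : 1 < c) (hκ : 0 < κ) (hκ1 : κ < 1) (hκ' : 0 < κ') (j : ℤ) (b : ℕ)
    (ε lam : ℝ) (hlam : 0 < lam)
    (hlaw : ∀ p : ℕ, ∃ N0 : ℕ, ∀ N : ℕ, N0 ≤ N → ∀ k : ℕ, (k : ℝ) ≤ Real.log N ^ p →
      |dif α c (patt j k) N| ≤ (N : ℝ) ^ (1 - κ))
    (hfin : ∃ X : ℝ, ∀ x : ℝ, X ≤ x → ∀ H : ℕ, lam / (2 * c) * Real.log x ≤ H → 100 * b * (H : ℝ) ≤ x →
      (1 / 3 - ε) * (H : ℝ) ≤ (((Icc 1 H).filter (fun k : ℕ => κ' * (1 * sg (2 * b * k) * x / Real.log x ^ 2) ≤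
        ((((Icc 1 ⌊x⌋₊).filter (fun p : ℕ => p.Prime ∧ (p - 2 * b * k).Prime)).card : ℕ) : ℝ))).card : ℝ)) (A : ℕ) :
    ∃ N0 : ℕ, ∀ N : ℕ, N0 ≤ N → ∀ H : ℕ, lam * Real.log N ≤ H → (H : ℝ) ≤ Real.log N ^ A →
      (1 / 3 - ε) * (H : ℝ) ≤ (((Icc 1 H).filter (fun k : ℕ =>
        κ' / (32 * c ^ 3) * (sg (2 * b * k) * N / Real.log N ^ 2) ≤ (cnt α c j (2 * b * k) N : ℝ))).card : ℝ) := by
  have hc0 : 0 < c := by linarith
  obtain ⟨N1, h1⟩ := hlaw (A + 1)
  obtain ⟨X, h2⟩ := hfin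
  have hlogt : Tendsto (fun N : ℕ => Real.log N) atTop atTop := Real.tendsto_log_atTop.comp tendsto_natCast_atTop_atTop
  have hN : Tendsto (fun N : ℕ => (N : ℝ)) atTop atTop := tendsto_natCast_atTop_atTop
  obtain ⟨N2, h3⟩ := (((ms_ge hα hc).and (log_ms hα hc 0 c hc0)).and
    (((log_pow_le hκ 2 (32 * c ^ 3 * (j.natAbs + 1) / κ')).and (log_pow_le (show (0 : ℝ) < 1 / 2 by norm_num) A (200 * b))).and
      ((hlogt.eventually (eventually_ge_atTop (2 * (b : ℝ)))).and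
        (hN.eventually (eventually_ge_atTop (max X 0 + 2 * j.natAbs + 4)))))).exists_forall_of_atTop
  refine ⟨max N1 (max N2 1), fun N hN H hH1 hH2 => ?_⟩
  have hNN1 : N1 ≤ N := (le_max_left _ _).trans hN
  have hNN2 : N2 ≤ N := ((le_max_left _ _).trans (le_max_right _ _)).trans hN
  obtain ⟨⟨hY, hlg⟩, ⟨herr, hHA⟩, hb2, hX⟩ := h3 N hNN2
  have hjr0 : (0 : ℝ) ≤ (j.natAbs : ℕ) := Nat.cast_nonneg _
  have hX1 := le_max_left X 0
  have hX2 := le_max_right X 0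
  have hj : 2 * j.natAbs + 4 ≤ N := by
    have : ((2 * j.natAbs + 4 : ℕ) : ℝ) ≤ N := by
      push_cast
      have e : ((j.natAbs : ℕ) : ℝ) = |(j : ℝ)| := by rw [Nat.cast_natAbs]; simp
      rw [e] at hX
      linarith
    exact_mod_cast this
  have hN4 : 4 ≤ N := by omega
  have hNr : (4 : ℝ) ≤ N := by exact_mod_cast hN4
  have hlN : 0 < Real.log N := Real.log_pos (by linarith)
  have hlog : Real.log (ms α c N : ℕ) ≤ 2 * c * Real.log N := by
    have := hlg.2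
    simp only [add_zero, Int.cast_natCast] at this
    linarith
  obtain ⟨x, hx⟩ : ∃ x : ℕ, x = ms α c N - j.natAbs := ⟨_, rfl⟩
  have hxN : N ≤ 2 * x := by omega
  have hxJ : N ≤ x + j.natAbs := by omega
  have hxNr : (N : ℝ) ≤ 2 * x := by exact_mod_cast hxN
  have hxX : X ≤ (x : ℝ) := by
    have h5 : (N : ℝ) ≤ x + (j.natAbs : ℕ) := by exact_mod_cast hxJ
    have e : ((j.natAbs : ℕ) : ℝ) = |(j : ℝ)| := by rw [Nat.cast_natAbs]; simp
    rw [e] at hX h5 hjr0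
    linarith
  have hx0 : 0 < (x : ℝ) := by linarith
  have hxY : (x : ℝ) ≤ (ms α c N : ℕ) := by
    rw [hx]
    exact_mod_cast Nat.sub_le _ _
  have hlx : Real.log x ≤ 2 * c * Real.log N := (Real.log_le_log hx0 hxY).trans hlog
  have hc1 : lam / (2 * c) * Real.log x ≤ H := by
    refine le_trans ?_ hH1
    calc lam / (2 * c) * Real.log x ≤ lam / (2 * c) * (2 * c * Real.log N) :=
          mul_le_mul_of_nonneg_left hlx (by positivity)
      _ = lam * Real.log N := by field_simp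
  have hc2 : 100 * b * (H : ℝ) ≤ x := by
    have h5 : (N : ℝ) ^ (1 / 2 : ℝ) ≤ N := by
      calc (N : ℝ) ^ (1 / 2 : ℝ) ≤ (N : ℝ) ^ (1 : ℝ) :=
            Real.rpow_le_rpow_of_exponent_le (by linarith) (by norm_num)
        _ = N := Real.rpow_one _
    have h6 : 200 * (b : ℝ) * H ≤ 200 * b * Real.log N ^ A := mul_le_mul_of_nonneg_left hH2 (by positivity)
    linarith
  have h4 := h2 x hxX H hc1 hc2
  rw [Nat.floor_natCast] at h4
  refine h4.trans ?_
  rw [Nat.cast_le]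
  apply Finset.card_le_card
  intro k hk
  obtain ⟨hk1, hk2⟩ := mem_filter.1 hk
  refine mem_filter.2 ⟨hk1, ?_⟩
  rw [mem_Icc] at hk1
  have hkH : (k : ℝ) ≤ H := by exact_mod_cast hk1.2
  have hkA : ((2 * b * k : ℕ) : ℝ) ≤ Real.log N ^ (A + 1) := by
    push_cast
    rw [pow_succ]
    calc 2 * (b : ℝ) * k ≤ 2 * b * Real.log N ^ A := mul_le_mul_of_nonneg_left (hkH.trans hH2) (by positivity)
      _ = Real.log N ^ A * (2 * b) := by ring
      _ ≤ _ := mul_le_mul_of_nonneg_left hb2 (by positivity)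
  apply one_pair hα hc hκ1 hκ' (one_le_sg _) j (2 * b * k) N (h1 N hNN1 _ hkA) (by omega) hY hj hlog herr
  rw [← hx]
  rw [one_mul] at hk2
  exact hk2

end Pool.Agent.U909.UL
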