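import Pool.Agent.U909.UL.Tot
import Pool.Agent.U909.PW.Count

/-!
# Pairs of primes with small differences along `⌊α n ^ c⌋`: from all integers to the sequence
-/

set_option autoImplicit false

open Finset Filter Topology

namespace Pool.Agent.U909.UL

open Pool.Agent.Y854.PS (ms xs wt wt_nonneg wt_anti xs_nonneg ms_mono)
open Pool.Agent.Y854.ST (Ioc_zero)
open Pool.Agent.U909.PW (ms_le ms_ge log_pow_le log_ms)

/-- the weight at the end of the range -/
lemma wt_end {α c : ℝ} (hα : 0 < α) (hc : 1 < c) (N : ℕ) (hN : 1 ≤ ms α c N) :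
    (N : ℝ) / (2 * c * (ms α c N : ℕ)) ≤ α ^ (-(1 / c)) * wt c (ms α c N) := by
  have hc0 : 0 < c := by linarith
  have hY : (1 : ℝ) ≤ (ms α c N : ℕ) := by exact_mod_cast hN
  have hxs : xs α c N < (ms α c N : ℕ) + 1 := Nat.lt_floor_add_one _
  have e : α ^ (-(1 / c)) * (xs α c N) ^ (1 / c) = N := by
    unfold xs
    rw [Real.mul_rpow hα.le (by positivity), ← Real.rpow_mul (Nat.cast_nonneg N), mul_one_div_cancel hc0.ne',
      Real.rpow_one, ← mul_assoc, ← Real.rpow_add hα]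
    simp
  obtain ⟨Y, hYd⟩ : ∃ Y : ℝ, Y = ((ms α c N : ℕ) : ℝ) := ⟨_, rfl⟩
  rw [← hYd] at hY hxs
  have hY0 : 0 < Y := by linarith
  obtain ⟨a, ha⟩ : ∃ a : ℝ, a = α ^ (-(1 / c)) := ⟨_, rfl⟩
  have ha0 : 0 < a := by rw [ha]; positivity
  rw [← ha] at e
  have h1 : (xs α c N) ^ (1 / c) ≤ 2 * Y ^ (1 / c) := by
    have h2 : (xs α c N) ^ (1 / c) ≤ (2 * Y) ^ (1 / c) :=
      Real.rpow_le_rpow (xs_nonneg hα N) (by linarith) (by positivity)
    rw [Real.mul_rpow (by norm_num) hY0.le] at h2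
    have h3 : (2 : ℝ) ^ (1 / c) ≤ 2 := by
      calc (2 : ℝ) ^ (1 / c) ≤ (2 : ℝ) ^ (1 : ℝ) := Real.rpow_le_rpow_of_exponent_le (by norm_num)
            (by rw [div_le_one hc0]; exact hc.le)
        _ = 2 := Real.rpow_one _
    exact h2.trans (mul_le_mul_of_nonneg_right h3 (by positivity))
  have h4 : (N : ℝ) ≤ 2 * (a * Y ^ (1 / c)) := by
    rw [← e]
    calc a * (xs α c N) ^ (1 / c) ≤ a * (2 * Y ^ (1 / c)) := mul_le_mul_of_nonneg_left h1 ha0.le
      _ = _ := by ring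
  have h5 : wt c (ms α c N) = 1 / c * (Y ^ (1 / c) / Y) := by
    unfold wt
    rw [← hYd, Real.rpow_sub hY0, Real.rpow_one]
  rw [h5, ← ha, ← hYd, div_le_iff₀ (by positivity)]
  have h6 : a * (1 / c * (Y ^ (1 / c) / Y)) * (2 * c * Y) = 2 * (a * Y ^ (1 / c)) := by
    field_simp
  rw [h6]
  exact h4

open Classical in
/-- the lower bound for the weighted sum -/
lemma low {α c : ℝ} (hα : 0 < α) (hc : 1 < c) (A : Set ℕ) (N : ℕ) (hN : 1 ≤ ms α c N) :
    (N : ℝ) / (2 * c * (ms α c N : ℕ)) * (((Icc 1 (ms α c N)).filter (fun t => t ∈ A)).card : ℝ) ≤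
      α ^ (-(1 / c)) * ∑ t ∈ Ioc 0 (ms α c N), wt c t * ind A t := by
  have ha0 : 0 < α ^ (-(1 / c)) := Real.rpow_pos_of_pos hα _
  have h1 : wt c (ms α c N) * (((Icc 1 (ms α c N)).filter (fun t => t ∈ A)).card : ℝ) ≤
      ∑ t ∈ Ioc 0 (ms α c N), wt c t * ind A t := by
    rw [Ioc_zero, ← Finset.sum_boole, Finset.mul_sum]
    apply Finset.sum_le_sum
    intro t ht
    rw [mem_Icc] at ht
    exact mul_le_mul_of_nonneg_right (wt_anti hc (by omega) ht.2) (ind_nonneg A t)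
  calc _ ≤ α ^ (-(1 / c)) * wt c (ms α c N) * (((Icc 1 (ms α c N)).filter (fun t => t ∈ A)).card : ℝ) :=
        mul_le_mul_of_nonneg_right (wt_end hα hc N hN) (Nat.cast_nonneg _)
    _ = α ^ (-(1 / c)) * (wt c (ms α c N) * (((Icc 1 (ms α c N)).filter (fun t => t ∈ A)).card : ℝ)) := by ring
    _ ≤ _ := mul_le_mul_of_nonneg_left h1 ha0.le

/-- the integers `t` for which `t + j` and `t + j + h` are prime -/
def patt (j : ℤ) (h : ℕ) : Set ℕ := {t | ((t : ℤ) + j).toNat.Prime ∧ ((t : ℤ) + j + h).toNat.Prime}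

open Classical in
lemma pi_le (j : ℤ) (h Y x : ℕ) (hx : x + j.natAbs ≤ Y) :
    ((Icc 1 x).filter (fun p : ℕ => p.Prime ∧ (p - h).Prime)).card ≤
      ((Icc 1 Y).filter (fun t => t ∈ patt j h)).card + j.natAbs := by
  obtain ⟨P, hP⟩ : ∃ P, P = (Icc 1 x).filter (fun p : ℕ => p.Prime ∧ (p - h).Prime) := ⟨_, rfl⟩
  rw [← hP, ← Finset.card_filter_add_card_filter_not (s := P) (fun p => j.natAbs < p - h)]
  apply add_le_add
  · apply Finset.card_le_card_of_injOn (fun p : ℕ => ((p : ℤ) - h - j).toNat)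
    · intro p hp
      rw [mem_coe, mem_filter, hP, mem_filter, mem_Icc] at hp
      obtain ⟨⟨⟨h1, h2⟩, h3, h4⟩, h5⟩ := hp
      have h6 := h4.two_le
      have h7 : ((((p : ℤ) - h - j).toNat : ℕ) : ℤ) = (p : ℤ) - h - j := Int.toNat_of_nonneg (by omega)
      rw [mem_coe, mem_filter, mem_Icc]
      refine ⟨⟨?_, ?_⟩, ?_, ?_⟩
      · show 1 ≤ ((p : ℤ) - h - j).toNat
        omega
      · show ((p : ℤ) - h - j).toNat ≤ Y
        omega
      · show ((((p : ℤ) - h - j).toNat : ℤ) + j).toNat.Prime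
        rw [h7]
        have e : ((p : ℤ) - h - j + j).toNat = p - h := by omega
        rw [e]
        exact h4
      · show ((((p : ℤ) - h - j).toNat : ℤ) + j + h).toNat.Prime
        rw [h7]
        have e : ((p : ℤ) - h - j + j + h).toNat = p := by omega
        rw [e]
        exact h3
    · intro p hp q hq hpq
      rw [mem_coe, mem_filter, hP, mem_filter, mem_Icc] at hp hq
      have h1 := hp.1.2.2.two_le
      have h2 := hq.1.2.2.two_le
      have h3 := hp.2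
      have h4 := hq.2
      have h5 : ((p : ℤ) - h - j).toNat = ((q : ℤ) - h - j).toNat := hpq
      omega
  · calc _ ≤ (Icc 1 j.natAbs).card := by
          apply Finset.card_le_card_of_injOn (fun p : ℕ => p - h)
          · intro p hp
            rw [mem_coe, mem_filter, hP, mem_filter, mem_Icc] at hp
            have h1 := hp.1.2.2.two_le
            have h2 := hp.2
            rw [mem_coe, mem_Icc]
            show 1 ≤ p - h ∧ p - h ≤ j.natAbs
            omega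
          · intro p hp q hq hpq
            rw [mem_coe, mem_filter, hP, mem_filter, mem_Icc] at hp hq
            have h1 := hp.1.2.2.two_le
            have h2 := hq.1.2.2.two_le
            have h5 : p - h = q - h := hpq
            omega
      _ = j.natAbs := by simp

/-- the number of the `n ≤ N` for which `⌊α n ^ c⌋ + j` and `⌊α n ^ c⌋ + j + h` are both prime -/
noncomputable def cnt (α c : ℝ) (j : ℤ) (h N : ℕ) : ℕ :=
  ((Icc 1 N).filter fun n : ℕ => (⌊α * (n : ℝ) ^ c⌋ + j).toNat.Prime ∧ (⌊α * (n : ℝ) ^ c⌋ + j + h).toNat.Prime).card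

lemma cnt_eq {α c : ℝ} (hα : 0 < α) (j : ℤ) (h N : ℕ) :
    (cnt α c j h N : ℝ) = ∑ n ∈ Icc 1 N, ind (patt j h) (ms α c n) := by
  classical
  unfold cnt ind
  rw [Finset.sum_boole]
  congr 2
  apply Finset.filter_congr
  intro n _
  have h1 : ⌊α * (n : ℝ) ^ c⌋ = ((ms α c n : ℕ) : ℤ) := by
    unfold ms
    rw [Int.natCast_floor_eq_floor (xs_nonneg hα n)]
    rfl
  rw [h1]
  rfl

/-- The passage from all integers to the sequence, for one `N` and one difference. -/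
lemma one_pair {α c κ κ' g : ℝ} (hα : 0 < α) (hc : 1 < c) (hκ1 : κ < 1) (hκ' : 0 < κ') (hg : 1 ≤ g) (j : ℤ) (h N : ℕ)
    (hlaw : |dif α c (patt j h) N| ≤ (N : ℝ) ^ (1 - κ)) (hN : 2 ≤ N) (hY : N ≤ ms α c N) (hj : 2 * j.natAbs + 4 ≤ N)
    (hlog : Real.log (ms α c N : ℕ) ≤ 2 * c * Real.log N)
    (herr : (32 * c ^ 3 * (j.natAbs + 1) / κ') * Real.log N ^ 2 ≤ (N : ℝ) ^ κ)
    (hfin : κ' * (g * ((ms α c N - j.natAbs : ℕ) : ℝ) / Real.log ((ms α c N - j.natAbs : ℕ) : ℝ) ^ 2) ≤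
      (((Icc 1 (ms α c N - j.natAbs)).filter (fun p : ℕ => p.Prime ∧ (p - h).Prime)).card : ℝ)) :
    κ' / (32 * c ^ 3) * (g * N / Real.log N ^ 2) ≤ (cnt α c j h N : ℝ) := by
  classical
  have hc0 : 0 < c := by linarith
  have hN0 : (0 : ℝ) < N := by exact_mod_cast (by omega : 0 < N)
  have hN1 : (1 : ℝ) < N := by exact_mod_cast (by omega : 1 < N)
  have hlN : 0 < Real.log N := Real.log_pos hN1
  obtain ⟨Y, hYd⟩ : ∃ Y : ℕ, Y = ms α c N := ⟨_, rfl⟩
  have h1 := low hα hc (patt j h) N (by omega)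
  rw [← hYd] at h1 hY hlog hfin
  have hYN : (N : ℝ) ≤ Y := by exact_mod_cast hY
  have hY0 : (0 : ℝ) < Y := by linarith
  have h2 := pi_le j h Y (Y - j.natAbs) (by omega)
  have h3 : (((Icc 1 (Y - j.natAbs)).filter (fun p : ℕ => p.Prime ∧ (p - h).Prime)).card : ℝ) ≤
      (((Icc 1 Y).filter (fun t => t ∈ patt j h)).card : ℝ) + j.natAbs := by exact_mod_cast h2
  obtain ⟨J, hJ⟩ : ∃ J : ℝ, J = ((j.natAbs : ℕ) : ℝ) := ⟨_, rfl⟩
  have hJ0 : 0 ≤ J := by rw [hJ]; exact Nat.cast_nonneg _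
  have hjr : 2 * J + 4 ≤ N := by rw [hJ]; exact_mod_cast hj
  obtain ⟨x, hx⟩ : ∃ x : ℝ, x = ((Y - j.natAbs : ℕ) : ℝ) := ⟨_, rfl⟩
  have hx1 : x = Y - J := by
    rw [hx, hJ, Nat.cast_sub (by omega)]
  rw [← hJ] at h3 herr
  rw [← hx] at hfin
  have hxY : (Y : ℝ) / 2 ≤ x := by rw [hx1]; linarith
  have hx2 : 2 ≤ x := by linarith
  have hlx : 0 < Real.log x := Real.log_pos (by linarith)
  have hlxN : Real.log x ≤ 2 * c * Real.log N := by
    refine le_trans (Real.log_le_log (by linarith) ?_) hlog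
    rw [hx1]
    linarith
  -- the main term
  have h4 : g * (Y / (8 * c ^ 2 * Real.log N ^ 2)) ≤ g * x / Real.log x ^ 2 := by
    rw [mul_div_assoc]
    apply mul_le_mul_of_nonneg_left _ (by linarith)
    have h5 : Real.log x ^ 2 ≤ (2 * c * Real.log N) ^ 2 := pow_le_pow_left₀ hlx.le hlxN 2
    calc (Y : ℝ) / (8 * c ^ 2 * Real.log N ^ 2) = Y / 2 / (2 * c * Real.log N) ^ 2 := by
          field_simp
          ring
      _ ≤ x / (2 * c * Real.log N) ^ 2 := by gcongr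
      _ ≤ x / Real.log x ^ 2 := by gcongr
  have h6 : κ' * (g * (Y / (8 * c ^ 2 * Real.log N ^ 2))) - J ≤
      (((Icc 1 Y).filter (fun t => t ∈ patt j h)).card : ℝ) := by
    have := mul_le_mul_of_nonneg_left h4 hκ'.le
    linarith
  have hNY0 : 0 < (N : ℝ) / (2 * c * Y) := by positivity
  have h7 := (mul_le_mul_of_nonneg_left h6 hNY0.le).trans h1
  have h8 : (N : ℝ) / (2 * c * Y) * (κ' * (g * (Y / (8 * c ^ 2 * Real.log N ^ 2))) - J) =
      κ' / (16 * c ^ 3) * (g * N / Real.log N ^ 2) - (N : ℝ) / (2 * c * Y) * J := by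
    field_simp
    ring
  have h9 : (N : ℝ) / (2 * c * Y) * J ≤ J := by
    have : (N : ℝ) / (2 * c * Y) ≤ 1 := by
      rw [div_le_one (by positivity)]
      nlinarith
    calc (N : ℝ) / (2 * c * Y) * J ≤ 1 * J := mul_le_mul_of_nonneg_right this hJ0
      _ = J := one_mul _
  have h10 : (cnt α c j h N : ℝ) = dif α c (patt j h) N +
      α ^ (-(1 / c)) * ∑ t ∈ Ioc 0 Y, wt c t * ind (patt j h) t := by
    rw [cnt_eq hα, hYd]
    unfold dif
    ring
  have h11 := neg_le_of_abs_le hlaw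
  have h12 : (1 : ℝ) ≤ (N : ℝ) ^ (1 - κ) := Real.one_le_rpow hN1.le (by linarith)
  have h13 : J + (N : ℝ) ^ (1 - κ) ≤ κ' / (32 * c ^ 3) * (g * N / Real.log N ^ 2) := by
    have e1 : (N : ℝ) = (N : ℝ) ^ κ * (N : ℝ) ^ (1 - κ) := by
      rw [← Real.rpow_add hN0]
      simp
    have h14 : (J + 1) * (N : ℝ) ^ (1 - κ) ≤ κ' / (32 * c ^ 3) * (N / Real.log N ^ 2) := by
      have h15 : (J + 1) * Real.log N ^ 2 ≤ κ' / (32 * c ^ 3) * (N : ℝ) ^ κ := by
        have := mul_le_mul_of_nonneg_left herr (show 0 ≤ κ' / (32 * c ^ 3) by positivity)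
        refine le_trans (le_of_eq ?_) this
        field_simp
      rw [← mul_div_assoc, le_div_iff₀ (by positivity)]
      calc (J + 1) * (N : ℝ) ^ (1 - κ) * Real.log N ^ 2 = (J + 1) * Real.log N ^ 2 * (N : ℝ) ^ (1 - κ) := by ring
        _ ≤ κ' / (32 * c ^ 3) * (N : ℝ) ^ κ * (N : ℝ) ^ (1 - κ) := mul_le_mul_of_nonneg_right h15 (by positivity)
        _ = κ' / (32 * c ^ 3) * ((N : ℝ) ^ κ * (N : ℝ) ^ (1 - κ)) := by ring
        _ = _ := by rw [← e1]
    have h16 : κ' / (32 * c ^ 3) * (N / Real.log N ^ 2) ≤ κ' / (32 * c ^ 3) * (g * N / Real.log N ^ 2) := by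
      apply mul_le_mul_of_nonneg_left _ (by positivity)
      rw [mul_div_assoc]
      have : 0 ≤ (N : ℝ) / Real.log N ^ 2 := by positivity
      exact le_mul_of_one_le_left this hg
    have h18 : J * 1 ≤ J * (N : ℝ) ^ (1 - κ) := mul_le_mul_of_nonneg_left h12 hJ0
    calc J + (N : ℝ) ^ (1 - κ) ≤ (J + 1) * (N : ℝ) ^ (1 - κ) := by linarith
      _ ≤ _ := h14.trans h16
  have h17 : κ' / (16 * c ^ 3) * (g * N / Real.log N ^ 2) = 2 * (κ' / (32 * c ^ 3) * (g * N / Real.log N ^ 2)) := by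
    field_simp
    ring
  rw [h8, h17] at h7
  rw [h10]
  linarith

end Pool.Agent.U909.UL
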