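import Pool.Agent.Y854.GM.Samp
import Pool.Agent.Y854.PS.Total
import Pool.Agent.Y854.ST.Equiv
import Pool.Agent.U909.PW.Seq

/-!
# The law along `⌊α n ^ c⌋` for families of sets, uniformly in a parameter up to a power of the logarithm

Adapted from `Pool.Agent.Y854.GM.totalG` (library).
-/

set_option autoImplicit false

open Finset Filter Topology

namespace Pool.Agent.U909.UL

open Pool.Agent.Y854.PS (ms xs wt wt_nonneg xs_nonneg ms_mono ms_strict block_card geo sc sc_iff sc_mono)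
open Pool.Agent.Y854.GM (SampG samp_gen)
open Pool.Agent.Y854.ST (sum_wt_up Ioc_zero)
open Pool.Agent.U909.PW (ms_le ms_ge)

open Classical in
/-- the indicator function -/
noncomputable def ind (A : Set ℕ) (t : ℕ) : ℝ := if t ∈ A then 1 else 0

lemma ind_nonneg (A : Set ℕ) (t : ℕ) : 0 ≤ ind A t := by unfold ind; split_ifs <;> norm_num

lemma ind_le (A : Set ℕ) (t : ℕ) : ind A t ≤ 1 := by unfold ind; split_ifs <;> norm_num

/-- the difference of the two counts -/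
noncomputable def dif (α c : ℝ) (A : Set ℕ) (N : ℕ) : ℝ :=
  ∑ n ∈ Icc 1 N, ind A (ms α c n) - α ^ (-(1 / c)) * ∑ t ∈ Ioc 0 (ms α c N), wt c t * ind A t

/-- all the scales from `J` on, uniformly -/
theorem scales {α c κ : ℝ} (hα : 0 < α) (hc : 1 < c) (hκ : 0 < κ) (hκ1 : κ ≤ 1 / (8 * c)) (A : ℕ → Set ℕ) (M : ℕ → ℕ)
    (hM : Monotone M) (hS : SampG (fun _ k => A k) M (ms α c) c (α ^ (-(1 / c))) κ) :
    ∃ K : ℝ, 0 < K ∧ ∃ j0 : ℕ, ∀ J : ℕ, j0 ≤ J → ∀ N : ℕ, 2 ^ J < ms α c N → ∀ k < M J,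
      |∑ n ∈ (Icc 1 N).filter (fun n => 2 ^ J < ms α c n), ind (A k) (ms α c n) -
        α ^ (-(1 / c)) * ∑ t ∈ Ioc (2 ^ J) (ms α c N), wt c t * ind (A k) t| ≤ K * (N : ℝ) ^ (1 - c * κ) := by
  classical
  have hc0 : 0 < c := by linarith
  set a := α ^ (-(1 / c)) with ha
  have ha0 : 0 < a := Real.rpow_pos_of_pos hα _
  obtain ⟨C, hC, i1, h1⟩ := hS
  have hcκ : c * κ ≤ 1 / 8 := by
    have h1 : κ * (8 * c) ≤ 1 := by rwa [le_div_iff₀ (by positivity)] at hκ1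
    linarith
  set β : ℝ := 1 / c - κ with hβ
  have hβ0 : 0 < β := by
    have h1 : κ < 1 / c := by
      rw [lt_div_iff₀ hc0]
      linarith
    linarith
  have hβ1 : β < 1 := by
    have h1 : 1 / c < 1 := by rw [div_lt_one hc0]; exact hc
    linarith
  have hcβ : c * β = 1 - c * κ := by
    rw [hβ, mul_sub, mul_one_div_cancel hc0.ne']
  obtain ⟨Cg, hCg, hgeo⟩ := geo (c := 1 / β) (by rw [lt_div_iff₀ hβ0]; linarith)
  simp only [one_div_one_div] at hgeo
  obtain ⟨i2, hstrict⟩ := ms_strict hα hc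
  refine ⟨C * (Cg * α ^ β), by positivity, max (max i1 i2) 1, fun J hJ N hN k hk => ?_⟩
  have hJ1 : i1 ≤ J := ((le_max_left _ _).trans (le_max_left _ _)).trans hJ
  have hJ2 : i2 ≤ J := ((le_max_right _ _).trans (le_max_left _ _)).trans hJ
  have hJ3 : 1 ≤ J := (le_max_right _ _).trans hJ
  have h2J : 2 ≤ 2 ^ J := by
    calc 2 = 2 ^ 1 := by norm_num
      _ ≤ 2 ^ J := Nat.pow_le_pow_right (by norm_num) (by omega)
  have hN1 : 1 ≤ N := by
    rcases Nat.eq_zero_or_pos N with h | h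
    · subst h
      exfalso
      have : ms α c 0 = 0 := by
        unfold ms xs
        rw [Nat.cast_zero, Real.zero_rpow hc0.ne', mul_zero, Nat.floor_zero]
      omega
    · exact h
  have hNpos : (0 : ℝ) < N := by exact_mod_cast hN1
  set Fn : ℕ → ℝ := fun n => ind (A k) (ms α c n) with hFn
  set g : ℕ → ℝ := fun t => wt c t * ind (A k) t with hg
  set Big := (Icc 1 N).filter (fun n => 2 ^ J < ms α c n) with hBig
  set I : ℕ := sc (ms α c N) with hI
  have hmaps1 : ∀ n ∈ Big, sc (ms α c n) ∈ range (I + 1) := by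
    intro n hn
    rw [hBig, mem_filter, mem_Icc] at hn
    rw [mem_range]
    have := sc_mono (ms_mono hα hc0.le hn.1.2)
    omega
  have hmaps2 : ∀ t ∈ Ioc (2 ^ J) (ms α c N), sc t ∈ range (I + 1) := by
    intro t ht
    rw [mem_Ioc] at ht
    rw [mem_range]
    have := sc_mono ht.2
    omega
  have hfib : ∀ i ∈ range (I + 1), |∑ n ∈ Big.filter (fun n => sc (ms α c n) = i), Fn n -
      a * ∑ t ∈ (Ioc (2 ^ J) (ms α c N)).filter (fun t => sc t = i), g t| ≤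
        C * ((2 : ℝ) ^ i) ^ β := by
    intro i hiI
    rw [mem_range] at hiI
    by_cases hiJ : J ≤ i
    · have h2i : 2 ^ J ≤ 2 ^ i := Nat.pow_le_pow_right (by norm_num) hiJ
      have hIN : 2 ^ I < ms α c N := ((sc_iff (by omega)).mp hI.symm).1
      have hiN : 2 ^ i < ms α c N := lt_of_le_of_lt (Nat.pow_le_pow_right (by norm_num) (by omega)) hIN
      set y : ℕ := min (2 ^ (i + 1)) (ms α c N) with hy
      have hy1 : 2 ^ i ≤ y := le_min (Nat.pow_le_pow_right (by norm_num) (by omega)) hiN.le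
      have hy2 : y ≤ 2 ^ (i + 1) := min_le_left _ _
      have e2 : (Ioc (2 ^ J) (ms α c N)).filter (fun t => sc t = i) = Ioc (2 ^ i) y := by
        ext t
        rw [mem_filter, mem_Ioc, mem_Ioc, hy, le_min_iff]
        constructor
        · rintro ⟨⟨h1, h2⟩, h3⟩
          rw [sc_iff (by omega)] at h3
          exact ⟨h3.1, h3.2, h2⟩
        · rintro ⟨h1, h2, h3⟩
          refine ⟨⟨by omega, h3⟩, ?_⟩
          rw [sc_iff (by omega)]
          exact ⟨h1, h2⟩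
      have e1 : ∀ n, n ∈ Big.filter (fun n => sc (ms α c n) = i) ↔ 1 ≤ n ∧ 2 ^ i < ms α c n ∧ ms α c n ≤ y := by
        intro n
        rw [mem_filter, hBig, mem_filter, mem_Icc, hy, le_min_iff]
        constructor
        · rintro ⟨⟨⟨h1, h2⟩, h3⟩, h4⟩
          rw [sc_iff (by omega)] at h4
          exact ⟨h1, h4.1, h4.2, ms_mono hα hc0.le h2⟩
        · rintro ⟨h1, h2, h3, h4⟩
          have h5 : n ≤ N := by
            by_contra hcon
            push Not at hcon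
            have h6 : 2 ^ i2 < ms α c N :=
              lt_of_le_of_lt (Nat.pow_le_pow_right (by norm_num) (hJ2.trans hiJ)) hiN
            have := hstrict N n h6 hcon
            omega
          refine ⟨⟨⟨h1, h5⟩, by omega⟩, ?_⟩
          rw [sc_iff (by omega)]
          exact ⟨h2, h3⟩
      rw [e2]
      exact h1 i (hJ1.trans hiJ) k (lt_of_lt_of_le hk (hM hiJ)) (2 ^ i) y le_rfl hy1 hy2 _ e1
    · push Not at hiJ
      have e1 : Big.filter (fun n => sc (ms α c n) = i) = ∅ := by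
        apply Finset.eq_empty_of_forall_notMem
        intro n hn
        rw [mem_filter, hBig, mem_filter, mem_Icc] at hn
        obtain ⟨⟨-, h3⟩, h4⟩ := hn
        rw [sc_iff (by omega)] at h4
        have h5 : 2 ^ (i + 1) ≤ 2 ^ J := Nat.pow_le_pow_right (by norm_num) (by omega)
        omega
      have e2 : (Ioc (2 ^ J) (ms α c N)).filter (fun t => sc t = i) = ∅ := by
        apply Finset.eq_empty_of_forall_notMem
        intro t ht
        rw [mem_filter, mem_Ioc] at ht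
        obtain ⟨⟨h3, -⟩, h4⟩ := ht
        rw [sc_iff (by omega)] at h4
        have h5 : 2 ^ (i + 1) ≤ 2 ^ J := Nat.pow_le_pow_right (by norm_num) (by omega)
        omega
      rw [e1, e2]
      simp only [sum_empty, mul_zero, sub_zero, abs_zero]
      positivity
  have e3 : ∑ n ∈ Big, Fn n - a * ∑ t ∈ Ioc (2 ^ J) (ms α c N), g t =
      ∑ i ∈ range (I + 1), (∑ n ∈ Big.filter (fun n => sc (ms α c n) = i), Fn n -
        a * ∑ t ∈ (Ioc (2 ^ J) (ms α c N)).filter (fun t => sc t = i), g t) := by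
    rw [Finset.sum_sub_distrib, ← Finset.mul_sum, Finset.sum_fiberwise_of_maps_to hmaps1,
      Finset.sum_fiberwise_of_maps_to hmaps2]
  rw [e3]
  refine (Finset.abs_sum_le_sum_abs _ _).trans ((Finset.sum_le_sum hfib).trans ?_)
  rw [← Finset.mul_sum]
  have h2 : ((2 : ℝ) ^ I) ^ β ≤ α ^ β * (N : ℝ) ^ (1 - c * κ) := by
    have h3 : 2 ^ I < ms α c N := ((sc_iff (by omega)).mp hI.symm).1
    have h4 : (2 : ℝ) ^ I ≤ xs α c N := by
      have h5 : (2 : ℝ) ^ I < ms α c N := by exact_mod_cast h3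
      have h6 : (ms α c N : ℝ) ≤ xs α c N := Nat.floor_le (xs_nonneg hα N)
      linarith
    calc ((2 : ℝ) ^ I) ^ β ≤ (xs α c N) ^ β :=
          Real.rpow_le_rpow (by positivity) h4 hβ0.le
      _ = α ^ β * (N : ℝ) ^ (1 - c * κ) := by
          unfold xs
          rw [Real.mul_rpow hα.le (by positivity), ← Real.rpow_mul hNpos.le, hcβ]
  calc C * ∑ i ∈ range (I + 1), ((2 : ℝ) ^ i) ^ β ≤ C * (Cg * (α ^ β * (N : ℝ) ^ (1 - c * κ))) := by
        apply mul_le_mul_of_nonneg_left _ hC.le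
        exact (hgeo I).trans (mul_le_mul_of_nonneg_left h2 hCg.le)
    _ = C * (Cg * α ^ β) * (N : ℝ) ^ (1 - c * κ) := by ring

/-- the small terms -/
theorem small {α c : ℝ} (hα : 0 < α) (hc : 1 < c) : ∃ K : ℝ, 0 < K ∧ ∀ (A : Set ℕ) (J N : ℕ), 2 ^ (2 * J) ≤ ms α c N →
    |∑ n ∈ (Icc 1 N).filter (fun n => ¬ 2 ^ J < ms α c n), ind A (ms α c n)| +
      |α ^ (-(1 / c)) * ∑ t ∈ Ioc 0 (2 ^ J), wt c t * ind A t| ≤ K * (N : ℝ) ^ (1 / 2 : ℝ) := by
  classical
  have hc0 : 0 < c := by linarith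
  set a := α ^ (-(1 / c)) with ha
  have ha0 : 0 < a := Real.rpow_pos_of_pos hα _
  obtain ⟨C, hC, hblock⟩ := block_card hα hc
  refine ⟨(C + a) * α ^ (1 / (2 * c)), by positivity, fun A J N hN => ?_⟩
  have h0 : ((2 : ℝ) ^ J) ^ (1 / c) ≤ α ^ (1 / (2 * c)) * (N : ℝ) ^ (1 / 2 : ℝ) := by
    have h1 : ((2 : ℝ) ^ J) ^ (2 : ℕ) ≤ xs α c N := by
      have h2 : ((2 : ℝ) ^ (2 * J)) ≤ ms α c N := by exact_mod_cast hN
      have h3 : (ms α c N : ℝ) ≤ xs α c N := Nat.floor_le (xs_nonneg hα N)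
      rw [← pow_mul, mul_comm J 2]
      linarith
    have h2 : (((2 : ℝ) ^ J) ^ (2 : ℕ)) ^ (1 / (2 * c)) ≤ (xs α c N) ^ (1 / (2 * c)) :=
      Real.rpow_le_rpow (by positivity) h1 (by positivity)
    have e1 : (((2 : ℝ) ^ J) ^ (2 : ℕ)) ^ (1 / (2 * c)) = ((2 : ℝ) ^ J) ^ (1 / c) := by
      rw [← Real.rpow_natCast ((2 : ℝ) ^ J) 2, ← Real.rpow_mul (by positivity)]
      congr 1
      push_cast
      field_simp
    have e2 : (xs α c N) ^ (1 / (2 * c)) = α ^ (1 / (2 * c)) * (N : ℝ) ^ (1 / 2 : ℝ) := by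
      unfold xs
      rw [Real.mul_rpow hα.le (by positivity), ← Real.rpow_mul (Nat.cast_nonneg N)]
      congr 2
      field_simp
    rw [e1, e2] at h2
    exact h2
  have h1 : |∑ n ∈ (Icc 1 N).filter (fun n => ¬ 2 ^ J < ms α c n), ind A (ms α c n)| ≤ C * ((2 : ℝ) ^ J) ^ (1 / c) := by
    rw [abs_of_nonneg (Finset.sum_nonneg fun n _ => ind_nonneg _ _)]
    have h2 : ∑ n ∈ (Icc 1 N).filter (fun n => ¬ 2 ^ J < ms α c n), ind A (ms α c n) ≤
        (((Icc 1 N).filter (fun n => ¬ 2 ^ J < ms α c n)).card : ℝ) := by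
      refine (Finset.sum_le_sum fun n _ => ind_le A _).trans ?_
      rw [sum_const, nsmul_eq_mul, mul_one]
    refine h2.trans (hblock J _ fun n hn => ?_)
    rw [mem_filter, mem_Icc] at hn
    refine ⟨hn.1.1, ?_⟩
    rw [pow_succ]
    omega
  have h2 : |a * ∑ t ∈ Ioc 0 (2 ^ J), wt c t * ind A t| ≤ a * ((2 : ℝ) ^ J) ^ (1 / c) := by
    have h3 : 0 ≤ ∑ t ∈ Ioc 0 (2 ^ J), wt c t * ind A t :=
      Finset.sum_nonneg fun t _ => mul_nonneg (wt_nonneg hc t) (ind_nonneg _ _)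
    rw [abs_of_nonneg (mul_nonneg ha0.le h3)]
    apply mul_le_mul_of_nonneg_left _ ha0.le
    have h4 := sum_wt_up hc (2 ^ J)
    push_cast at h4
    refine le_trans (Finset.sum_le_sum fun t _ => ?_) h4
    exact mul_le_of_le_one_right (wt_nonneg hc t) (ind_le A t)
  calc _ ≤ C * ((2 : ℝ) ^ J) ^ (1 / c) + a * ((2 : ℝ) ^ J) ^ (1 / c) := add_le_add h1 h2
    _ = (C + a) * ((2 : ℝ) ^ J) ^ (1 / c) := by ring
    _ ≤ (C + a) * (α ^ (1 / (2 * c)) * (N : ℝ) ^ (1 / 2 : ℝ)) :=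
        mul_le_mul_of_nonneg_left h0 (by positivity)
    _ = _ := by ring

/-- **The uniform law** for one sequence of sets. -/
theorem totalU {α c κ : ℝ} (hα : 0 < α) (hc : 1 < c) (hκ : 0 < κ) (hκ1 : κ ≤ 1 / (8 * c)) (A : ℕ → Set ℕ) (p : ℕ)
    (hS : SampG (fun _ k => A k) (fun i => (i + 2) ^ (p + 1)) (ms α c) c (α ^ (-(1 / c))) κ) :
    ∃ N0 : ℕ, ∀ N : ℕ, N0 ≤ N → ∀ k : ℕ, (k : ℝ) ≤ Real.log N ^ p → |dif α c (A k) N| ≤ (N : ℝ) ^ (1 - c * κ / 2) := by
  classical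
  have hc0 : 0 < c := by linarith
  obtain ⟨K1, hK1, j0, h1⟩ := scales hα hc hκ hκ1 A (fun i => (i + 2) ^ (p + 1))
    (fun i j hij => Nat.pow_le_pow_left (by omega) _) hS
  obtain ⟨K2, hK2, h2⟩ := small hα hc
  have hcκ : c * κ ≤ 1 / 8 := by
    have h1 : κ * (8 * c) ≤ 1 := by rwa [le_div_iff₀ (by positivity)] at hκ1
    linarith
  have hcκ0 : 0 < c * κ := by positivity
  have hlim1 : Tendsto (fun N : ℕ => (N : ℝ) ^ (c * κ / 2)) atTop atTop :=
    (tendsto_rpow_atTop (by positivity)).comp tendsto_natCast_atTop_atTop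
  have hlog : Tendsto (fun N : ℕ => Real.log N) atTop atTop := Real.tendsto_log_atTop.comp tendsto_natCast_atTop_atTop
  obtain ⟨N1, h3⟩ := ((hlim1.eventually (eventually_ge_atTop (K1 + K2))).and ((ms_ge hα hc).and
    (hlog.eventually (eventually_ge_atTop ((3 : ℝ) ^ (p + 1) + 4 * (j0 : ℝ) + 8))))).exists_forall_of_atTop
  refine ⟨max N1 1, fun N hN k hk => ?_⟩
  obtain ⟨h4, h5, h6⟩ := h3 N ((le_max_left _ _).trans hN)
  have hN1 : 1 ≤ N := (le_max_right _ _).trans hN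
  have hNpos : (0 : ℝ) < N := by exact_mod_cast hN1
  set L := Real.log N with hL
  -- the scale
  set J : ℕ := Nat.log 2 N / 2 with hJ
  have hJL : L / 3 ≤ (J : ℝ) + 2 := by
    have h7 : N < 2 ^ (Nat.log 2 N + 1) := Nat.lt_pow_succ_log_self (by norm_num) N
    have h8 : Nat.log 2 N + 1 ≤ 2 * J + 2 := by omega
    have h9 : (N : ℝ) ≤ 2 ^ (2 * J + 2) := by
      have : N ≤ 2 ^ (2 * J + 2) := h7.le.trans (Nat.pow_le_pow_right (by norm_num) h8)
      exact_mod_cast this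
    have h10 : L ≤ (2 * J + 2 : ℕ) * Real.log 2 := by
      rw [← Real.log_pow]
      exact Real.log_le_log hNpos h9
    have h11 := Real.log_two_lt_d9
    have h12 : (0 : ℝ) ≤ (2 * J + 2 : ℕ) := Nat.cast_nonneg _
    have h13 : L ≤ (2 * J + 2 : ℕ) * 1 := h10.trans (mul_le_mul_of_nonneg_left (by linarith) h12)
    push_cast at h13
    linarith
  have hp3 : (0 : ℝ) < 3 ^ (p + 1) := by positivity
  have hp31 : (1 : ℝ) ≤ 3 ^ (p + 1) := one_le_pow₀ (by norm_num)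
  have hj0 : j0 ≤ J := by
    have h7 : (j0 : ℝ) ≤ J := by linarith
    exact_mod_cast h7
  have h2J : 2 ^ (2 * J) ≤ N := by
    calc 2 ^ (2 * J) ≤ 2 ^ Nat.log 2 N := Nat.pow_le_pow_right (by norm_num) (by omega)
      _ ≤ N := Nat.pow_log_le_self 2 (by omega)
  have hJms : 2 ^ (2 * J) ≤ ms α c N := h2J.trans h5
  have hJ1 : 1 ≤ J := by
    have h7 : (1 : ℝ) ≤ J := by
      have : (0 : ℝ) ≤ j0 := Nat.cast_nonneg _
      linarith
    exact_mod_cast h7
  have hJlt : 2 ^ J < ms α c N := lt_of_lt_of_le (Nat.pow_lt_pow_right (by norm_num) (by omega)) hJms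
  have hkM : k < (J + 2) ^ (p + 1) := by
    have hL0 : 0 < L := by
      have : (0 : ℝ) ≤ j0 := Nat.cast_nonneg _
      linarith
    have h7 : (L / 3) ^ (p + 1) ≤ ((J : ℝ) + 2) ^ (p + 1) := pow_le_pow_left₀ (by positivity) hJL _
    have h8 : L ^ p < (L / 3) ^ (p + 1) := by
      rw [div_pow, lt_div_iff₀ hp3, pow_succ]
      have h9 : (3 : ℝ) ^ (p + 1) < L := by
        have : (0 : ℝ) ≤ j0 := Nat.cast_nonneg _
        linarith
      exact mul_lt_mul_of_pos_left h9 (by positivity)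
    have h9 : (k : ℝ) < ((J + 2) ^ (p + 1) : ℕ) := by
      push_cast
      linarith
    exact_mod_cast h9
  have h7 := h1 J hj0 N hJlt k hkM
  have h8 := h2 (A k) J N hJms
  set a := α ^ (-(1 / c)) with ha
  have hsplit : ∑ t ∈ Ioc 0 (ms α c N), wt c t * ind (A k) t =
      ∑ t ∈ Ioc 0 (2 ^ J), wt c t * ind (A k) t + ∑ t ∈ Ioc (2 ^ J) (ms α c N), wt c t * ind (A k) t :=
    (Finset.sum_Ioc_consecutive _ (Nat.zero_le _) hJlt.le).symm
  have e : dif α c (A k) N = (∑ n ∈ (Icc 1 N).filter (fun n => 2 ^ J < ms α c n), ind (A k) (ms α c n) -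
        a * ∑ t ∈ Ioc (2 ^ J) (ms α c N), wt c t * ind (A k) t) +
      (∑ n ∈ (Icc 1 N).filter (fun n => ¬ 2 ^ J < ms α c n), ind (A k) (ms α c n) -
        a * ∑ t ∈ Ioc 0 (2 ^ J), wt c t * ind (A k) t) := by
    unfold dif
    rw [← Finset.sum_filter_add_sum_filter_not (Icc 1 N) (fun n => 2 ^ J < ms α c n), hsplit]
    ring
  rw [e]
  have t1 := abs_add_le (∑ n ∈ (Icc 1 N).filter (fun n => 2 ^ J < ms α c n), ind (A k) (ms α c n) -
        a * ∑ t ∈ Ioc (2 ^ J) (ms α c N), wt c t * ind (A k) t)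
      (∑ n ∈ (Icc 1 N).filter (fun n => ¬ 2 ^ J < ms α c n), ind (A k) (ms α c n) -
        a * ∑ t ∈ Ioc 0 (2 ^ J), wt c t * ind (A k) t)
  have t2 := abs_sub (∑ n ∈ (Icc 1 N).filter (fun n => ¬ 2 ^ J < ms α c n), ind (A k) (ms α c n))
    (a * ∑ t ∈ Ioc 0 (2 ^ J), wt c t * ind (A k) t)
  have hN1' : (1 : ℝ) ≤ N := by exact_mod_cast hN1
  have h9 : (N : ℝ) ^ (1 / 2 : ℝ) ≤ (N : ℝ) ^ (1 - c * κ) := Real.rpow_le_rpow_of_exponent_le hN1' (by linarith)
  have h10 : (N : ℝ) ^ (1 - c * κ / 2) = (N : ℝ) ^ (c * κ / 2) * (N : ℝ) ^ (1 - c * κ) := by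
    rw [← Real.rpow_add hNpos]
    congr 1
    ring
  have h11 : 0 < (N : ℝ) ^ (1 - c * κ) := Real.rpow_pos_of_pos hNpos _
  rw [h10]
  calc _ ≤ K1 * (N : ℝ) ^ (1 - c * κ) + K2 * (N : ℝ) ^ (1 / 2 : ℝ) := by linarith
    _ ≤ K1 * (N : ℝ) ^ (1 - c * κ) + K2 * (N : ℝ) ^ (1 - c * κ) := by
        have := mul_le_mul_of_nonneg_left h9 hK2.le
        linarith
    _ = (K1 + K2) * (N : ℝ) ^ (1 - c * κ) := by ring
    _ ≤ _ := mul_le_mul_of_nonneg_right h4 h11.le

/-- **The uniform law.** For countably many sequences of sets, all real `α > 0` outside a set of dimension less than `1`,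
uniformly in the members of the sequences with index up to a power of the logarithm. -/
theorem uniform (c : ℝ) (hc : 1 < c) : ∃ κ : ℝ, 0 < κ ∧ κ < 1 ∧ ∀ {ι : Type} [Countable ι] (A : ι → ℕ → Set ℕ),
    ∃ E : Set ℝ, dimH E < 1 ∧ ∀ α : ℝ, 0 < α → α ∉ E → ∀ (j : ι) (p : ℕ), ∃ N0 : ℕ, ∀ N : ℕ, N0 ≤ N →
      ∀ k : ℕ, (k : ℝ) ≤ Real.log N ^ p → |dif α c (A j k) N| ≤ (N : ℝ) ^ (1 - κ) := by
  obtain ⟨κ, hκ, hκ1, h⟩ := samp_gen c hc
  have hc0 : 0 < c := by linarith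
  have hcκ : c * κ ≤ 1 / 8 := by
    have h1 : κ * (8 * c) ≤ 1 := by rwa [le_div_iff₀ (by positivity)] at hκ1
    linarith
  have hκ2 : κ ≤ 1 / 8 := by nlinarith
  refine ⟨c * κ / 2, by positivity, by linarith, fun {ι} _ A => ?_⟩
  choose E hE hlaw using fun x : ι × ℕ => h (x.2 + 1) (fun i => (i + 2) ^ (x.2 + 1)) (fun i => le_rfl) (fun _ k => A x.1 k)
  refine ⟨⋃ x, E x, ?_, fun α hα hαE j p => ?_⟩
  · rw [dimH_iUnion]
    refine lt_of_le_of_lt (iSup_le hE) ?_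
    have : (1 : ENNReal) = ENNReal.ofReal 1 := by simp
    rw [this]
    exact (ENNReal.ofReal_lt_ofReal_iff (by norm_num)).mpr (by linarith)
  · have h1 : α ∉ E (j, p) := fun hcon => hαE (Set.mem_iUnion.2 ⟨(j, p), hcon⟩)
    exact totalU hα hc hκ hκ1 (A j) p (hlaw (j, p) α hα h1)

end Pool.Agent.U909.UL
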